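import Pool.Agent.H19.SYA.TA
import Pool.Agent.H11.ST2.KRL

/-!
Restriction to the attracting plane (row XPL of `sya_modules`).
-/

set_option autoImplicit false

namespace Pool.Agent.H64.SYA

open MvPolynomial Pool.Agent.H2.ST Pool.Agent.H15.TG Pool.Agent.H19.SYA

section

variable {k : Type} [Field k] {W : ℤ → Submodule k (Pol k 2)}
  {y : Fin 2 ⊕ Fin 2 → Pol k 2} {w : Fin 2 → ℤ}

/-- generators of the ideal of the attracting plane -/
def GJ (W : ℤ → Submodule k (Pol k 2)) : Set (Pol k 2) :=
  {f | (∃ n : ℤ, n < 0 ∧ f ∈ W n) ∨ (f ∈ W 0 ∧ constantCoeff f = 0)}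

/-- the ideal of the attracting plane -/
noncomputable def JJ (W : ℤ → Submodule k (Pol k 2)) : Ideal (Pol k 2) := Ideal.span (GJ W)

/-- the ideal of the variables `inr` -/
noncomputable def IR (k : Type) [Field k] : Ideal (Pol k 2) :=
  Ideal.span (Set.range fun i : Fin 2 => (X (Sum.inr i) : Pol k 2))

/-- forget the variables `inr` -/
noncomputable def rho (k : Type) [Field k] : Pol k 2 →ₐ[k] MvPolynomial (Fin 2) k :=
  aeval (Sum.elim (fun i => X i) fun _ => 0)

lemma rho_IR {Q : Pol k 2} (hQ : Q ∈ IR k) : rho k Q = 0 := by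
  have h : IR k ≤ RingHom.ker (rho k).toRingHom := by
    unfold IR
    rw [Ideal.span_le]
    rintro _ ⟨i, rfl⟩
    change rho k (X (Sum.inr i)) = 0
    simp [rho]
  exact h hQ

lemma rho_rename (P : MvPolynomial (Fin 2) k) : rho k (rename Sum.inl P) = P := by
  unfold rho
  rw [aeval_rename]
  have h : ((Sum.elim (fun i => X i) fun _ => 0 : Fin 2 ⊕ Fin 2 → MvPolynomial (Fin 2) k) ∘
      Sum.inl) = X := by
    funext i; rfl
  rw [h, aeval_X_left_apply]

lemma yJ (hA : Ada W y w) (hw : ∀ i, 0 < w i) (i : Fin 2) : y (Sum.inr i) ∈ JJ W :=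
  Ideal.subset_span (Or.inl ⟨-w i, by have := hw i; omega, hA.hr i⟩)

lemma IR_J (hA : Ada W y w) (hw : ∀ i, 0 < w i) {Q : Pol k 2} (hQ : Q ∈ IR k) :
    aeval y Q ∈ JJ W := by
  have h : IR k ≤ (JJ W).comap (aeval y : Pol k 2 →ₐ[k] Pol k 2).toRingHom := by
    unfold IR
    rw [Ideal.span_le]
    rintro _ ⟨i, rfl⟩
    change aeval y (X (Sum.inr i)) ∈ JJ W
    rw [aeval_X]
    exact yJ hA hw i
  exact h hQ

/-- a monomial containing a variable `inr` -/
lemma mon_IR (α : Fin 2 ⊕ Fin 2 →₀ ℕ) (c : k) (i : Fin 2) (h : α (Sum.inr i) ≠ 0) :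
    monomial α c ∈ IR k := by
  have h1 : (monomial α c : Pol k 2) =
      monomial (α - Finsupp.single (Sum.inr i) 1) c * X (Sum.inr i) := by
    have h2 : α - Finsupp.single (Sum.inr i) 1 + Finsupp.single (Sum.inr i) 1 = α := by
      ext s
      rw [Finsupp.add_apply, Finsupp.tsub_apply]
      by_cases hs : s = Sum.inr i
      · subst hs
        rw [Finsupp.single_eq_same]
        omega
      · rw [Finsupp.single_eq_of_ne hs]
        omega
    rw [X, monomial_mul, mul_one, h2]
  rw [h1]
  exact Ideal.mul_mem_left _ _ (Ideal.subset_span ⟨i, rfl⟩)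

/-- homogeneous elements are approximated by polynomials with monomials of the same weight -/
lemma approx (h1 : T_STB) (h2 : T_GEN) (hP : PGr W) (hA : Ada W y w) {χ : ℤ} {f : Pol k 2}
    (hf : f ∈ W χ) (N : ℕ) : ∃ P : Pol k 2, f - aeval y P ∈ (mo k 2) ^ N ∧
      ∀ α ∈ P.support, wtm w α = χ := by
  obtain ⟨P, hP1⟩ := (h2 k 2 ℤ W y w hA).2 N f
  have h3 := h1 k 2 ℤ W hP N _ hP1 χ
  obtain ⟨P', h4, h5⟩ := Pool.Agent.H11.ST2.cmp_aeval hP.toGr hA χ P
  refine ⟨P', ?_, h5⟩
  rw [map_sub, Finsupp.sub_apply, h4, cmp_of_mem hP.toGr hf, Finsupp.single_eq_same] at h3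
  exact h3

/-- components of small weight of elements of the powers of the maximal ideal -/
lemma small (hP : PGr W) : ∀ (N : ℕ) (x : Pol k 2), x ∈ (mo k 2) ^ N → ∀ n : ℤ, n < N →
    cmp hP.toGr x n ∈ JJ W := by
  intro N
  induction N with
  | zero =>
    intro x _ n hn
    exact Ideal.subset_span (Or.inl ⟨n, by simpa using hn, cmp_mem _ _ _⟩)
  | succ N ih =>
    intro x hx
    rw [pow_succ] at hx
    refine Submodule.mul_induction_on hx ?_ ?_
    · intro a ha b hb n hn
      have h1 : a * b = ∑ c ∈ (cmp hP.toGr b).support, a * cmp hP.toGr b c := by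
        rw [← Finset.mul_sum]
        congr 1
        exact (cmp_sum hP.toGr b).symm
      rw [h1, map_sum, Finsupp.finsetSum_apply]
      refine Ideal.sum_mem _ fun c _ => ?_
      have h2 := cmp_mul_of_mem hP.toGr (cmp_mem hP.toGr b c) a (n - c)
      rw [sub_add_cancel] at h2
      rw [h2]
      by_cases hc : c ≤ 0
      · refine Ideal.mul_mem_left _ _ ?_
        rcases hc.lt_or_eq with hc | hc
        · exact Ideal.subset_span (Or.inl ⟨c, hc, cmp_mem _ _ _⟩)
        · refine Ideal.subset_span (Or.inr ⟨by have := cmp_mem hP.toGr b c; rwa [hc] at this ⊢, ?_⟩)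
          have h3 : constantCoeff b = constantCoeff (cmp hP.toGr b c) := by
            conv_lhs => rw [← cmp_sum hP.toGr b]
            rw [Finsupp.sum, map_sum]
            refine Finset.sum_eq_single c (fun e _ he => ?_) (fun he => ?_)
            · exact hP.van e (by rw [hc] at he; exact he) _ (cmp_mem _ _ _)
            · rw [Finsupp.notMem_support_iff.mp he, map_zero]
          rw [← h3]
          exact hb
      · refine Ideal.mul_mem_right _ _ (ih a ha _ ?_)
        push_cast at hn
        omega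
    · intro a b iha ihb n hn
      rw [map_add, Finsupp.add_apply]
      exact (JJ W).add_mem (iha n hn) (ihb n hn)

/-- a monomial of weight `n` is, modulo the ideal of the variables `inr`, a monomial of weight `n`
in the variables `inl` -/
lemma rho_wh (P : Pol k 2) (n : ℤ) (h : ∀ α ∈ P.support, wtm w α = n) :
    IsWeightedHomogeneous w (rho k P) n := by
  classical
  have h1 : rho k P = ∑ α ∈ P.support, rho k (monomial α (coeff α P)) := by
    conv_lhs => rw [P.as_sum, map_sum]
  rw [h1]
  refine IsWeightedHomogeneous.sum _ _ _ fun α hα => ?_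
  by_cases hr : ∃ i : Fin 2, α (Sum.inr i) ≠ 0
  · obtain ⟨i, hi⟩ := hr
    rw [rho_IR (mon_IR α _ i hi)]
    exact isWeightedHomogeneous_zero k w n
  · push Not at hr
    have h2 := h α hα
    unfold rho
    rw [aeval_monomial, Finsupp.prod_fintype _ _ (fun i => pow_zero _), Fintype.prod_sum_type]
    have h3 : ∏ a₂ : Fin 2, (Sum.elim (fun i => X i) (fun _ => 0) (Sum.inr a₂) :
        MvPolynomial (Fin 2) k) ^ α (Sum.inr a₂) = 1 := by
      refine Finset.prod_eq_one fun i _ => ?_
      rw [hr i, pow_zero]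
    rw [h3, mul_one]
    have h4 : wtm w α = ∑ i, α (Sum.inl i) • w i := by
      unfold wtm
      refine Finset.sum_congr rfl fun i _ => ?_
      rw [hr i]
      simp
    rw [← h2, h4, algebraMap_eq, ← zero_add (∑ i, α (Sum.inl i) • w i)]
    refine (isWeightedHomogeneous_C w _).mul ?_
    refine IsWeightedHomogeneous.prod _ _ _ fun i _ => ?_
    exact (isWeightedHomogeneous_X k w i).pow _

/-- modulo the ideal of the variables `inr` nothing changes -/
lemma sub_rho (P : Pol k 2) : P - rename Sum.inl (rho k P) ∈ IR k := by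
  induction P using MvPolynomial.induction_on with
  | C a =>
    have : rho k (C a) = C a := by simp [rho]
    rw [this, rename_C, sub_self]
    exact (IR k).zero_mem
  | add p q hp hq =>
    rw [map_add, map_add]
    have h : p + q - (rename Sum.inl (rho k p) + rename Sum.inl (rho k q)) =
      (p - rename Sum.inl (rho k p)) + (q - rename Sum.inl (rho k q)) := by ring
    rw [h]
    exact (IR k).add_mem hp hq
  | mul_X p s hp =>
    rw [map_mul, map_mul]
    rcases s with i | i
    · have h1 : rho k (X (Sum.inl i)) = X i := by simp [rho]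
      rw [h1, rename_X, ← sub_mul]
      exact Ideal.mul_mem_right _ _ hp
    · have h1 : rho k (X (Sum.inr i)) = 0 := by simp [rho]
      rw [h1, map_zero, mul_zero, sub_zero]
      exact Ideal.mul_mem_left _ _ (Ideal.subset_span ⟨i, rfl⟩)

/-- surjectivity, homogeneous form -/
lemma sur_hom (h1 : T_STB) (h2 : T_GEN) (hP : PGr W) (hA : Ada W y w) (hw : ∀ i, 0 < w i)
    {n : ℤ} {f : Pol k 2} (hf : f ∈ W n) : ∃ G : MvPolynomial (Fin 2) k,
      IsWeightedHomogeneous w G n ∧ f - aeval (fun i => y (Sum.inl i)) G ∈ JJ W := by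
  obtain ⟨P, hP1, hP2⟩ := approx h1 h2 hP hA hf (n.toNat + 1)
  refine ⟨rho k P, rho_wh P n hP2, ?_⟩
  have h3 : f - aeval y P ∈ JJ W := by
    have h4 := small hP _ _ hP1 n (by push_cast; omega)
    have h5 : f - aeval y P ∈ W n := by
      refine (W n).sub_mem hf ?_
      have h6 : aeval y P = ∑ α ∈ P.support, aeval y (monomial α (coeff α P)) := by
        conv_lhs => rw [P.as_sum, map_sum]
      rw [h6]
      refine (W n).sum_mem fun α hα => ?_
      rw [← hP2 α hα]
      exact Pool.Agent.H11.ST2.mon_mem hP.toGr hA α _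
    rwa [cmp_of_mem hP.toGr h5, Finsupp.single_eq_same] at h4
  have h7 : aeval (fun i => y (Sum.inl i)) (rho k P) = aeval y (rename Sum.inl (rho k P)) := by
    rw [aeval_rename]; rfl
  have h8 : aeval y (P - rename Sum.inl (rho k P)) ∈ JJ W := IR_J hA hw (sub_rho P)
  rw [map_sub] at h8
  rw [h7]
  have h9 : f - aeval y (rename Sum.inl (rho k P)) =
      (f - aeval y P) + (aeval y P - aeval y (rename Sum.inl (rho k P))) := by ring
  rw [h9]
  exact (JJ W).add_mem h3 h8

lemma cc_aeval (hA : Ada W y w) (P : Pol k 2) : constantCoeff (aeval y P) = constantCoeff P := by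
  induction P using MvPolynomial.induction_on with
  | C a => simp
  | add p q hp hq => rw [map_add, map_add, map_add, hp, hq]
  | mul_X p s hp =>
    rw [map_mul, map_mul, map_mul, aeval_X, hA.hz s, constantCoeff_X, mul_zero, mul_zero]

/-- elements of the ideal are approximated by elements of the ideal of the variables `inr` -/
lemma J_approx (h1 : T_STB) (h2 : T_GEN) (hP : PGr W) (hA : Ada W y w) (hw : ∀ i, 0 < w i)
    (N : ℕ) {x : Pol k 2} (hx : x ∈ JJ W) : ∃ Q ∈ IR k, x - aeval y Q ∈ (mo k 2) ^ (N + 1) := by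
  unfold JJ at hx
  refine Submodule.span_induction ?_ ?_ ?_ ?_ hx
  · rintro g (⟨n, hn, hg⟩ | ⟨hg, hg0⟩)
    · obtain ⟨P, hP1, hP2⟩ := approx h1 h2 hP hA hg (N + 1)
      refine ⟨P, ?_, hP1⟩
      rw [P.as_sum]
      refine Ideal.sum_mem _ fun α hα => ?_
      have h3 := hP2 α hα
      by_cases hr : ∃ i : Fin 2, α (Sum.inr i) ≠ 0
      · obtain ⟨i, hi⟩ := hr
        exact mon_IR α _ i hi
      · exfalso
        push Not at hr
        have h4 : 0 ≤ wtm w α := by
          unfold wtm
          refine Finset.sum_nonneg fun i _ => ?_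
          rw [hr i]
          have := hw i
          simp only [Nat.cast_zero, sub_zero, smul_eq_mul]
          positivity
        omega
    · obtain ⟨P, hP1, hP2⟩ := approx h1 h2 hP hA hg (N + 1)
      refine ⟨P, ?_, hP1⟩
      have h5 : coeff 0 P = 0 := by
        have h6 : g - aeval y P ∈ mo k 2 := Ideal.pow_le_self (by omega) hP1
        have h7 := cc_aeval hA P
        have h8 : constantCoeff (g - aeval y P) = 0 := h6
        rw [map_sub, hg0, h7, zero_sub, neg_eq_zero] at h8
        exact h8
      rw [P.as_sum]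
      refine Ideal.sum_mem _ fun α hα => ?_
      have h3 := hP2 α hα
      by_cases hr : ∃ i : Fin 2, α (Sum.inr i) ≠ 0
      · obtain ⟨i, hi⟩ := hr
        exact mon_IR α _ i hi
      · exfalso
        push Not at hr
        have h4 : ∀ i : Fin 2, α (Sum.inl i) = 0 := by
          unfold wtm at h3
          have h8 : ∀ i ∈ (Finset.univ : Finset (Fin 2)),
              0 ≤ ((α (Sum.inl i) : ℤ) - (α (Sum.inr i) : ℤ)) • w i := by
            intro i _
            rw [hr i]
            have := hw i
            simp only [Nat.cast_zero, sub_zero, smul_eq_mul]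
            positivity
          intro i
          have h9 := (Finset.sum_eq_zero_iff_of_nonneg h8).mp h3 i (Finset.mem_univ i)
          rw [hr i] at h9
          simp only [Nat.cast_zero, sub_zero, smul_eq_mul, mul_eq_zero, Nat.cast_eq_zero] at h9
          have := hw i
          omega
        have h10 : α = 0 := by
          ext s
          rcases s with i | i
          · simpa using h4 i
          · simpa using hr i
        rw [mem_support_iff, h10] at hα
        exact hα h5
  · exact ⟨0, (IR k).zero_mem, by rw [map_zero, sub_zero]; exact Ideal.zero_mem _⟩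
  · rintro a b _ _ ⟨Q, hQ, hQ'⟩ ⟨R, hR, hR'⟩
    refine ⟨Q + R, (IR k).add_mem hQ hR, ?_⟩
    rw [map_add]
    have h : a + b - (aeval y Q + aeval y R) = (a - aeval y Q) + (b - aeval y R) := by ring
    rw [h]
    exact Ideal.add_mem _ hQ' hR'
  · rintro a b _ ⟨Q, hQ, hQ'⟩
    obtain ⟨R, hR⟩ := (h2 k 2 ℤ W y w hA).2 (N + 1) a
    refine ⟨R * Q, Ideal.mul_mem_left _ _ hQ, ?_⟩
    rw [map_mul, smul_eq_mul]
    have h : a * b - aeval y R * aeval y Q = a * (b - aeval y Q) + aeval y Q * (a - aeval y R) := by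
      ring
    rw [h]
    exact Ideal.add_mem _ (Ideal.mul_mem_left _ _ hQ') (Ideal.mul_mem_left _ _ hR)

/-- polynomials with a value of high order have only monomials of high degree -/
lemma hc_zero (h3 : T_ZLF) (hP : PGr W) (hA : Ada W y w) (N : ℕ) (F : Pol k 2)
    (hF : aeval y F ∈ (mo k 2) ^ N) : ∀ d < N, homogeneousComponent d F = 0 := by
  have hy : ∀ s, y s ∈ mo k 2 := fun s => hA.hz s
  have hmo : ∀ (d : ℕ) (G : Pol k 2), G.IsHomogeneous d → aeval y G ∈ (mo k 2) ^ d := by
    intro d G hG
    rw [G.as_sum, map_sum]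
    refine Ideal.sum_mem _ fun α hα => ?_
    rw [aeval_monomial, Finsupp.prod_fintype _ _ (fun i => pow_zero _)]
    refine Ideal.mul_mem_left _ _ ?_
    have h4 : d = ∑ s, α s := by
      have h5 := hG (mem_support_iff.mp hα)
      rw [← h5, Finsupp.weight_apply, Finsupp.sum_fintype _ _ (fun i => by simp)]
      exact Finset.sum_congr rfl fun i _ => by simp
    rw [h4, ← Finset.prod_pow_eq_pow_sum]
    exact Ideal.prod_mem_prod fun s _ => Ideal.pow_mem_pow (hy s) _
  intro d
  induction d using Nat.strong_induction_on with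
  | _ d ih =>
    intro hd
    refine (h3 k 2 ℤ W y w hP hA).1 d _ (homogeneousComponent_isHomogeneous d F) ?_
    have h4 : aeval y F = ∑ i ∈ Finset.range (F.totalDegree + 1),
        aeval y (homogeneousComponent i F) := by
      conv_lhs => rw [← sum_homogeneousComponent F, map_sum]
    by_cases hdF : d ∈ Finset.range (F.totalDegree + 1)
    · have h5 : aeval y (homogeneousComponent d F) = aeval y F -
          ∑ i ∈ (Finset.range (F.totalDegree + 1)).erase d, aeval y (homogeneousComponent i F) := by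
        rw [h4, ← Finset.add_sum_erase _ _ hdF]; ring
      rw [h5]
      refine Ideal.sub_mem _ (Ideal.pow_le_pow_right (by omega) hF) ?_
      refine Ideal.sum_mem _ fun i hi => ?_
      rcases lt_trichotomy i d with h | h | h
      · rw [ih i h (by omega), map_zero]; exact Ideal.zero_mem _
      · exact absurd h (Finset.ne_of_mem_erase hi)
      · exact Ideal.pow_le_pow_right (by omega) (hmo i _ (homogeneousComponent_isHomogeneous i F))
    · have h5 : homogeneousComponent d F = 0 := by
        apply homogeneousComponent_eq_zero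
        rw [Finset.mem_range] at hdF
        omega
      rw [h5, map_zero]; exact Ideal.zero_mem _

/-- injectivity -/
lemma inj (h1 : T_STB) (h2 : T_GEN) (h3 : T_ZLF) (hP : PGr W) (hA : Ada W y w)
    (hw : ∀ i, 0 < w i) (P : MvPolynomial (Fin 2) k)
    (hx : aeval (fun i => y (Sum.inl i)) P ∈ JJ W) : P = 0 := by
  obtain ⟨Q, hQ, hQ'⟩ := J_approx h1 h2 hP hA hw P.totalDegree hx
  have h7 : aeval (fun i => y (Sum.inl i)) P = aeval y (rename Sum.inl P) := by
    rw [aeval_rename]; rfl
  rw [h7, ← map_sub] at hQ'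
  set F : Pol k 2 := rename Sum.inl P - Q with hFdef
  have h8 := hc_zero h3 hP hA (P.totalDegree + 1) F hQ'
  have h9 : rho k F = P := by
    rw [hFdef, map_sub, rho_rename, rho_IR hQ, sub_zero]
  have hrh : ∀ (d : ℕ) (G : Pol k 2), G.IsHomogeneous d → (rho k G).IsHomogeneous d := by
    intro d G hG
    have h := hG.aeval (n := 1) (Sum.elim (fun i => (X i : MvPolynomial (Fin 2) k)) fun _ => 0)
      (fun s => by
        rcases s with i | i
        · exact isHomogeneous_X k i
        · exact isHomogeneous_zero _ _ _)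
    rwa [one_mul] at h
  have h10 : P = ∑ i ∈ Finset.range (F.totalDegree + 1), rho k (homogeneousComponent i F) := by
    conv_lhs => rw [← h9, ← sum_homogeneousComponent F, map_sum]
  ext β
  rw [coeff_zero]
  by_cases hβ : β ∈ P.support
  · rw [h10, coeff_sum]
    refine Finset.sum_eq_zero fun i _ => ?_
    by_cases hi : i < P.totalDegree + 1
    · rw [h8 i hi, map_zero, coeff_zero]
    · by_contra hne
      have h11 := hrh i _ (homogeneousComponent_isHomogeneous i F) hne
      have h12 := le_totalDegree hβ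
      have h13 : (Finsupp.weight (1 : Fin 2 → ℕ)) β = β.sum fun _ e => e := by
        rw [Finsupp.weight_apply]
        exact Finsupp.sum_congr fun i _ => by simp
      omega
  · exact notMem_support_iff.mp hβ

end

theorem pf_XPL (h1 : T_STB) (h2 : T_GEN) (h3 : T_ZLF) : T_XPL := by
  intro k _ _ W y w hP hA hw
  let ev : MvPolynomial (Fin 2) k →ₐ[k] Pol k 2 := aeval fun i => y (Sum.inl i)
  let ψ : MvPolynomial (Fin 2) k →ₐ[k] (Pol k 2 ⧸ JJ W) := (Ideal.Quotient.mkₐ k (JJ W)).comp ev
  have hker : ∀ G : MvPolynomial (Fin 2) k, ψ G = 0 → G = 0 := by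
    intro G hG
    have h4 : ev G ∈ JJ W := Ideal.Quotient.eq_zero_iff_mem.mp hG
    exact inj h1 h2 h3 hP hA hw G h4
  have hinj : Function.Injective ψ := (injective_iff_map_eq_zero ψ).mpr hker
  have hhom : ∀ (n : ℤ) (f : Pol k 2), f ∈ W n → ∃ G : MvPolynomial (Fin 2) k,
      IsWeightedHomogeneous w G n ∧ ψ G = Ideal.Quotient.mkₐ k (JJ W) f := by
    intro n f hf
    obtain ⟨G, hG, hG2⟩ := sur_hom h1 h2 hP hA hw hf
    refine ⟨G, hG, ?_⟩
    symm
    exact Ideal.Quotient.eq.mpr hG2
  have hsur : Function.Surjective ψ := by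
    intro x
    obtain ⟨f, rfl⟩ := Ideal.Quotient.mkₐ_surjective k (JJ W) x
    have h5 : f ∈ ((AlgHom.range ψ).comap (Ideal.Quotient.mkₐ k (JJ W)) : Subalgebra k _) := by
      rw [← cmp_sum hP.toGr f]
      refine Subalgebra.sum_mem _ fun n _ => ?_
      obtain ⟨G, _, hG⟩ := hhom n _ (cmp_mem hP.toGr f n)
      exact ⟨G, hG⟩
    exact h5
  let e : MvPolynomial (Fin 2) k ≃ₐ[k] (Pol k 2 ⧸ JJ W) := AlgEquiv.ofBijective ψ ⟨hinj, hsur⟩
  have he : ∀ (G : MvPolynomial (Fin 2) k) (f : Pol k 2), ψ G = Ideal.Quotient.mkₐ k (JJ W) f →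
      e.symm (Ideal.Quotient.mkₐ k (JJ W) f) = G := by
    intro G f h
    rw [← h]
    exact e.symm_apply_apply G
  have hz : ∀ f ∈ JJ W, e.symm (Ideal.Quotient.mkₐ k (JJ W) f) = 0 := by
    intro f hf
    have h6 : Ideal.Quotient.mkₐ k (JJ W) f = 0 := Ideal.Quotient.eq_zero_iff_mem.mpr hf
    rw [h6, map_zero]
  refine ⟨(e.symm : _ →ₐ[k] _).comp (Ideal.Quotient.mkₐ k (JJ W)), ?_, ?_, ?_, ?_⟩
  · exact e.symm.surjective.comp (Ideal.Quotient.mkₐ_surjective k (JJ W))
  · intro n hn f hf
    exact hz f (Ideal.subset_span (Or.inl ⟨n, hn, hf⟩))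
  · intro f hf hf0
    exact hz f (Ideal.subset_span (Or.inr ⟨hf, hf0⟩))
  · intro n f hf
    obtain ⟨G, hG, hG2⟩ := hhom n f hf
    have h7 := he G f hG2
    change IsWeightedHomogeneous w (e.symm (Ideal.Quotient.mkₐ k (JJ W) f)) n
    rw [h7]
    exact hG

end Pool.Agent.H64.SYA
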